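import Mathlib
import Pool.Agent.Q290.SC.Stm

set_option autoImplicit false

/-! Project SC (helper290), job BLK: an element of the integral symplectic group which fixes
`e_j`, `f_j` for all `j ≠ i` is a block. -/

namespace Pool.Agent.Q151.SC

open Pool.Agent.Q290.SC Pool.Agent.H29R2.MG

/-- a vector supported on `{i}` is a combination of `e_i`, `f_i` -/
theorem sup_single {g : ℕ} {i : Fin g} {v : VV g} (hv : Sup {i} v) :
    v = v (Sum.inl i) • ve i + v (Sum.inr i) • vf i := by
  refine co_ext fun k => ?_
  simp only [ve, vf, Pi.add_apply, Pi.smul_apply, smul_eq_mul, Pi.single_apply,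
    Sum.inl.injEq, Sum.inr.injEq, reduceCtorEq, if_false]
  by_cases h : k = i
  · subst h
    simp
  · have := hv k (by simpa using h)
    simp [h, this.1, this.2]

theorem blk : S_BLK := by
  intro g i M hM
  have he : Sup {i} (ac M (ve i)) := Sup.act hM (sup_ve (by simp))
  have hf : Sup {i} (ac M (vf i)) := Sup.act hM (sup_vf (by simp))
  have ee := sup_single he
  have ef := sup_single hf
  have h1 : om (ac M (ve i)) (ac M (vf i)) = 1 := by
    rw [om_ac, om_ve]
    simp [vf]
  have h2 : ac M (ve i) (Sum.inl i) * ac M (vf i) (Sum.inr i) -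
      ac M (ve i) (Sum.inr i) * ac M (vf i) (Sum.inl i) = 1 := by
    rw [ee, om_add_left, om_smul_left, om_smul_left, om_ve, om_vf] at h1
    linarith
  refine ⟨ac M (ve i) (Sum.inl i), ac M (ve i) (Sum.inr i), ac M (vf i) (Sum.inl i),
    ac M (vf i) (Sum.inr i), h2, ?_, ?_⟩
  · apply sp_ext_basis
    · intro j
      by_cases hj : j = i
      · subst hj
        rw [ac_L_e]
        exact ee
      · rw [ac_L_of h2 (by simp [ve, Ne.symm hj]) (by simp [ve])]
        exact (hM j (by simpa using hj)).1
    · intro j
      by_cases hj : j = i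
      · subst hj
        rw [ac_L_f]
        exact ef
      · rw [ac_L_of h2 (by simp [vf]) (by simp [vf, Ne.symm hj])]
        exact (hM j (by simpa using hj)).2
  · intro q hq
    have a1 := hq (ve i) (Sum.inl i)
    have a2 := hq (ve i) (Sum.inr i)
    have a3 := hq (vf i) (Sum.inl i)
    have a4 := hq (vf i) (Sum.inr i)
    simp only [ve, vf, Pi.single_apply, reduceCtorEq, if_false, if_true, sub_zero] at a1 a2 a3 a4
    exact ⟨a1, a2, a3, a4⟩

end Pool.Agent.Q151.SC
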