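import Mathlib
import Pool.Agent.Q290.SC.Stm

set_option autoImplicit false

/-! Project SC (helper290), job GEN: the transvections of Humphries' generators generate the
integral symplectic group. -/

namespace Pool.Agent.Q151.SC

open Pool.Agent.Q290.SC Pool.Agent.H29R2.MG

theorem gen : S_TR → S_HUM → S_FIXF → S_GEN := by
  intro hTR hHUM hFIX g
  have hKS : ∀ S : Finset (Fin g), KS 1 S ≤ Subgroup.closure (HumS g) := by
    intro S
    rw [KS, Subgroup.closure_le]
    rintro _ ⟨v, t, -, -, rfl⟩
    exact hHUM g v t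
  have key : ∀ n : ℕ, ∀ S : Finset (Fin g), S.card = n → ∀ M : SpG g, Fx S M →
      M ∈ Subgroup.closure (HumS g) := by
    intro n
    induction n with
    | zero =>
      intro S hS M hM
      have hS' : S = ∅ := Finset.card_eq_zero.1 hS
      subst hS'
      have : M = 1 := sp_ext_basis (fun i => (hM i (by simp)).1) (fun i => (hM i (by simp)).2)
      rw [this]
      exact one_mem _
    | succ n ih =>
      intro S hS M hM
      obtain ⟨k, hk⟩ : S.Nonempty := by
        rw [← Finset.card_pos]; omega
      have hw : Sup S (ac M (ve k)) := Sup.act hM (sup_ve hk)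
      have hpr : ∃ z, om (ac M (ve k)) z = 1 := by
        refine ⟨ac M (vf k), ?_⟩
        rw [om_ac, om_ve]
        simp [vf]
      obtain ⟨X₁, hX₁, e₁⟩ := hTR g S k hk (ac M (ve k)) hw hpr
      obtain ⟨X₂, hX₂, e₂, e₃, -⟩ := hFIX g 1 S k hk (X₁ * M)
        (fun x j => one_dvd _) ((KS_Fx hX₁).mul hM) (by rw [ac_mul]; exact e₁)
      have hF : Fx (S.erase k) (X₂ * (X₁ * M)) := by
        intro j hj
        by_cases hjk : j = k
        · subst hjk
          exact ⟨e₂, e₃⟩
        · exact ((KS_Fx hX₂).mul ((KS_Fx hX₁).mul hM)) j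
            (fun h => hj (Finset.mem_erase.2 ⟨hjk, h⟩))
      have hmem := ih (S.erase k) (by rw [Finset.card_erase_of_mem hk, hS]; rfl) _ hF
      have h1 : X₁ * M ∈ Subgroup.closure (HumS g) :=
        (Subgroup.mul_mem_cancel_left _ (hKS S hX₂)).1 hmem
      exact (Subgroup.mul_mem_cancel_left _ (hKS S hX₁)).1 h1
  intro M
  exact key _ Finset.univ rfl M (fun j hj => absurd (Finset.mem_univ j) hj)

end Pool.Agent.Q151.SC
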